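import Pool.Agent.H485R3.Hodge.KunnethH
import Pool.Agent.Q73.CM.Pair

/-!
# Full faithfulness of the Hodge realization on motives generated by several varieties with complex
# multiplication

Let `X i`, `i ∈ I`, be finitely many smooth projective varieties over an algebraically closed field
`k ⊂ ℂ` (or motives for absolute Hodge cycles) whose rational cohomology is a sum of Hodge structures
with complex multiplication: the `j`-th piece, `j ∈ J`, is a number field `E j`, it belongs to the
cohomology of `X (γ j)`, and the part of `E j ⊗ ℂ` belonging to the embedding `σ` has a type `(p, q)` with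
`p - q = u j σ`. No condition is made on the weights and the Hodge numbers.

The cohomology of the products of the `X i` (with repetitions) is a sum of spaces of rational
multilinear forms in variables `x k ∈ E (t k)`; the variables with `γ (t k) = i` belong to the factors
`X i`. A form is a Hodge class if the monomials `∏ σ k (x k)` occurring in it have `∑ (p - q) = 0`.

`F i` is the field generated by the images of the `E j`, `γ j = i`, under their embeddings with
`u ≠ 0`, and `H i` the field generated by all their images. The condition `MeetInReal` says that the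
`F i` meet in real numbers.

The Hodge realization of the motives generated by all the `X i` is fully faithful if and only if this
is true for the motives generated by each single `X i`: the homomorphisms between the realizations are
Hodge classes on products of the `X i`, these are combinations of external products of Hodge classes on
the powers of the single `X i`, and external products of absolute Hodge classes are absolute Hodge.
-/

set_option autoImplicit false

namespace Pool.Agent.Results.MP_0da4e0_ag.CMKunneth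

section defs

variable {J : Type} {E : J → Type} [∀ j, Field (E j)] [∀ j, NumberField (E j)]

/-- the complex conjugate of an embedding -/
noncomputable def conj {K : Type} [Field K] [NumberField K] (σ : K →ₐ[ℚ] ℂ) : K →ₐ[ℚ] ℂ :=
  ((Complex.conjAe.restrictScalars ℚ : ℂ ≃ₐ[ℚ] ℂ) : ℂ →ₐ[ℚ] ℂ).comp σ

/-- rational classes: multilinear forms in variables `x k ∈ E (t k)` -/
abbrev Form (E : J → Type) [∀ j, Field (E j)] [∀ j, NumberField (E j)] {κ : Type} (t : κ → J) :
    Type :=
  MultilinearMap ℚ (fun k => E (t k)) ℚ

/-- `φ` is a Hodge class: its complexification is a combination of monomials with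
`∑ (p - q) = 0` -/
def IsHodge (u : ∀ j, (E j →ₐ[ℚ] ℂ) → ℤ) {κ : Type} [Fintype κ] [DecidableEq κ] (t : κ → J)
    (φ : Form E t) : Prop :=
  ∃ c : (∀ k, E (t k) →ₐ[ℚ] ℂ) → ℂ, (∀ x, ((φ x : ℚ) : ℂ) = ∑ σ, c σ * ∏ k, σ k (x k)) ∧
    ∀ σ, c σ ≠ 0 → ∑ k, u (t k) (σ k) = 0

/-- the field `F i` generated by the parts with `u ≠ 0` of the pieces of `X i` -/
noncomputable def field {I : Type} (u : ∀ j, (E j →ₐ[ℚ] ℂ) → ℤ) (γ : J → I) (i : I) :
    IntermediateField ℚ ℂ :=
  IntermediateField.adjoin ℚ {z | ∃ j, γ j = i ∧ ∃ σ : E j →ₐ[ℚ] ℂ, u j σ ≠ 0 ∧ z ∈ σ.fieldRange}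

/-- the field `H i` generated by all conjugates of the pieces of `X i` -/
noncomputable def hull {I : Type} (E : J → Type) [∀ j, Field (E j)] [∀ j, NumberField (E j)]
    (γ : J → I) (i : I) : IntermediateField ℚ ℂ :=
  IntermediateField.adjoin ℚ {z | ∃ j, γ j = i ∧ ∃ σ : E j →ₐ[ℚ] ℂ, z ∈ σ.fieldRange}

/-- For all `i` the numbers in `F i` and in the compositum of the `H i ∩ F l`, `l ≠ i`, are real; or
`I` has at most two elements and the numbers in `F i ∩ F l` are real for `i ≠ l`. -/
def MeetInReal {I : Type} (u : ∀ j, (E j →ₐ[ℚ] ℂ) → ℤ) (γ : J → I) : Prop :=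
  (∀ i, ∀ z ∈ field u γ i ⊓ ⨆ l ∈ {l | l ≠ i}, hull E γ i ⊓ field u γ l, z.im = 0) ∨
  (Nat.card I ≤ 2 ∧ ∀ i l, i ≠ l → ∀ z ∈ field u γ i ⊓ field u γ l, z.im = 0)

/-- `ψ` is the external product over `i ∈ I` of forms `φ i` in the variables belonging to `X i` -/
def IsExternal {I : Type} [Fintype I] (γ : J → I) {n : ℕ} (t : Fin n → J) (ψ : Form E t)
    (φ : ∀ i, Form E (fun k : {k // γ (t k) = i} => t k)) : Prop :=
  ∀ v, ψ v = ∏ i, φ i (fun k => v k)

/-- the external products of Hodge classes -/
def external {I : Type} [Fintype I] [DecidableEq I] (u : ∀ j, (E j →ₐ[ℚ] ℂ) → ℤ) (γ : J → I)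
    {n : ℕ} (t : Fin n → J) : Set (Form E t) :=
  {ψ | ∃ φ : ∀ i, Form E (fun k : {k // γ (t k) = i} => t k),
    (∀ i, IsHodge u _ (φ i)) ∧ IsExternal γ t ψ φ}

/-- all Hodge classes on all products are combinations of external products of Hodge classes on the
powers of the single `X i` -/
def HodgeSpanned {I : Type} [Fintype I] [DecidableEq I] (u : ∀ j, (E j →ₐ[ℚ] ℂ) → ℤ)
    (γ : J → I) : Prop :=
  ∀ (n : ℕ) (t : Fin n → J) (φ : Form E t), IsHodge u t φ → φ ∈ Submodule.span ℚ (external u γ t)

/-- the notion `A` is closed under external products -/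
def ClosedExternal {I : Type} [Fintype I] (γ : J → I)
    (A : ∀ (κ : Type) (t : κ → J), Submodule ℚ (Form E t)) : Prop :=
  ∀ (n : ℕ) (t : Fin n → J) ψ φ, IsExternal γ t ψ φ → (∀ i, φ i ∈ A _ _) → ψ ∈ A _ t

/-- the Hodge classes on the powers of each single `X i` are in `A` -/
def HodgeOnPowers {I : Type} (u : ∀ j, (E j →ₐ[ℚ] ℂ) → ℤ) (γ : J → I)
    (A : ∀ (κ : Type) (t : κ → J), Submodule ℚ (Form E t)) : Prop :=
  ∀ (i : I) (κ : Type) [Fintype κ] [DecidableEq κ] (t : κ → J), (∀ k, γ (t k) = i) →
    ∀ φ : Form E t, IsHodge u t φ → φ ∈ A κ t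

end defs

lemma real_of {I J : Type} [Finite I] {E : J → Type} [∀ j, Field (E j)] [∀ j, NumberField (E j)]
    {u : ∀ j, (E j →ₐ[ℚ] ℂ) → ℤ} {γ : J → I} (h : MeetInReal u γ) (i : I) :
    ∀ z ∈ field u γ i ⊓ ⨆ l ∈ {l | l ≠ i}, hull E γ i ⊓ field u γ l, z.im = 0 := by
  rcases h with h | ⟨h1, h2⟩
  · exact h i
  · intro z hz
    have h3 : ∀ i j k : I, i ≠ j → i ≠ k → j = k := by
      intro i j k hij hik
      by_contra hjk
      cases nonempty_fintype I
      classical
      have h5 : ({i, j, k} : Finset I).card ≤ Fintype.card I := Finset.card_le_univ _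
      rw [Finset.card_insert_of_notMem (by simp [hij, hik]),
        Finset.card_insert_of_notMem (by simp [hjk]), Finset.card_singleton] at h5
      rw [Nat.card_eq_fintype_card] at h1
      omega
    have h4 : field u γ i ⊓ ⨆ l ∈ {l | l ≠ i}, hull E γ i ⊓ field u γ l ≤
        Pool.Agent.Q73.CM.RR := by
      by_cases hex : ∃ j, j ≠ i
      · obtain ⟨j, hj⟩ := hex
        refine le_trans (inf_le_inf_left _ (iSup₂_le fun k hk => ?_))
          (fun z hz => Pool.Agent.Q73.CM.mem_RR.2 (h2 i j (Ne.symm hj) z hz))
        have : k = j := h3 i k j (Ne.symm hk) (Ne.symm hj)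
        subst this
        exact inf_le_right
      · refine inf_le_right.trans (iSup₂_le fun j hj => ?_)
        exact absurd ⟨j, hj⟩ hex
    exact Pool.Agent.Q73.CM.mem_RR.1 (h4 hz)

/-- **Künneth theorem for Hodge classes.** (1) All Hodge classes on products of the `X i` are
combinations of external products of Hodge classes on the powers of the `X i`. (2) Hence, for any
notion `A` of classes that is closed under linear combinations and external products (algebraic
classes, absolute Hodge classes): if all Hodge classes on the powers of each single `X i` are in `A`,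
then all Hodge classes on all products are in `A`. -/
theorem result {I J : Type} [Fintype I] [DecidableEq I] [Finite J] {E : J → Type}
    [∀ j, Field (E j)] [∀ j, NumberField (E j)] (u : ∀ j, (E j →ₐ[ℚ] ℂ) → ℤ)
    (hu : ∀ j σ, u j (conj σ) = - u j σ) (γ : J → I) (hreal : MeetInReal u γ) :
    HodgeSpanned u γ ∧
    ∀ A : ∀ (κ : Type) (t : κ → J), Submodule ℚ (Form E t), ClosedExternal γ A →
      HodgeOnPowers u γ A → ∀ (n : ℕ) (t : Fin n → J) φ, IsHodge u t φ → φ ∈ A _ t := by
  have h1 : ∀ (n : ℕ) (t : Fin n → J) (φ : Form E t), IsHodge u t φ →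
      φ ∈ Submodule.span ℚ (external u γ t) := fun n t φ hφ =>
    Pool.Agent.H485R3.Hodge.kunneth_hodge u hu γ (fun i => real_of hreal i) t φ hφ
  refine ⟨h1, fun A hA hs n t φ hφ => ?_⟩
  refine (Submodule.span_le.2 ?_) (h1 n t φ hφ)
  rintro ψ ⟨φ', hφ', hψ⟩
  exact hA n t ψ φ' hψ fun i => hs i _ _ (fun k => k.2) (φ' i) (hφ' i)

end Pool.Agent.Results.MP_0da4e0_ag.CMKunneth
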