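import Pool.Agent.Q193.LT.Defs

/-!
# Hodge classes, absolute Hodge classes and the cubic hypersurfaces `T(x, y, z) = 1`

Let `k` be an algebraically closed field with an embedding `σ` into `ℂ`. Let `M` be the category
`M_k` of motives for absolute Hodge cycles (with the Künneth grading), `ω : M ⥤ Hod` the Hodge
realization `H_σ`, `M ↦ M(a)` the Tate twists. `M` is a semisimple abelian category (Deligne). For a
separated `k`-scheme `X` of finite type let `D.H i X` be the object of `M` given by the graded object of
the weight filtration of the cohomology with compact supports `H^i_c(X)` (Deligne, Jannsen); for smooth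
projective `X` it is the motive `h^i(X)`. As the weight filtration is strict, the long exact sequence of
a closed subscheme and its open complement is exact on the graded objects, so it is exact in `M`.

A Hodge class of `D.H i X` is a morphism `ω(1) → ω((D.H i X)(a))`, that is a Hodge class of
type `(0, 0)` in `Gr^W_{2a} H^i_c(σX, ℚ)(a)`; it is absolute Hodge if and only if it comes from a
morphism `1 → (D.H i X)(a)` of `M`. For smooth projective `X` these are the Hodge classes (with `i = 2a`)
of question Q1.

For a trilinear form `T(x, y, z) = ∑ t_{ijk} x_i y_j z_k` with coefficients in `k`, in any numbers of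
variables `x_1, …, x_a`, `y_1, …, y_b`, `z_1, …, z_c`, the affine cubic hypersurface `T(x, y, z) = 1` is
smooth over `k`.

**Theorem.** (1) The following are equivalent: every Hodge class on every smooth projective variety over
`k` is absolute Hodge (question Q1 for `(k, σ)`); every Hodge class of the cohomology of every
hypersurface `T(x, y, z) = 1` is absolute Hodge.

(2) For every `n` the following are equivalent: every Hodge class on every smooth projective variety of
dimension at most `n` over `k` is absolute Hodge; every Hodge class of the cohomology of every
hypersurface `T(x, y, z) = 1` such that one of the three blocks of variables has at most `n + 2`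
variables (the other two blocks are arbitrary) is absolute Hodge.

(3) Unconditionally, if one of the three blocks of variables has at most five variables, then all Hodge
classes of the cohomology of the hypersurface `T(x, y, z) = 1`, of all degrees and weights, are absolute
Hodge. (The dimensions of these hypersurfaces are unbounded.)
-/

set_option autoImplicit false

open CategoryTheory CategoryTheory.Limits AlgebraicGeometry Pool.Agent.Y116.UV Pool.Agent.Z125.UN
  Pool.Agent.Q193.LT

universe v u v' u'

namespace Pool.Agent.Results.MP_0da4e0_ag.CubicHypersurfaces

/-- What is used about the category `M` of motives for absolute Hodge cycles over `k`, its unit object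
`one`, the Hodge realization `ω`, the Tate twists `D.tw` and the cohomology with compact supports
`D.H i X` (graded objects of the weight filtration).

* `compact`: long exact sequences, affine bundles, products with `𝔾_m` (see `IsCompact`);
* `generated`: smooth projective varieties generate (see `Generated`), by resolution of
  singularities;
* `semisimple`: every monomorphism of `M` splits (Deligne);
* `point`: Hodge classes on `Spec k` are absolute Hodge;
* `threefolds`: Hodge classes on smooth projective varieties of dimension at most three are absolute
  Hodge (Lefschetz' theorem on `(1, 1)` classes and the hard Lefschetz theorem: they are algebraic). -/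
structure IsAbsoluteHodge {k : Type} [Field k] {M : Type u} [Category.{v} M] [Abelian M]
    {Hod : Type u'} [Category.{v'} Hod] [Preadditive Hod] (D : CompactData k M) (one : M)
    (ω : M ⥤ Hod) : Prop where
  compact : IsCompact D
  generated : Generated D
  semisimple : ∀ {X Y : M} (f : X ⟶ Y), Mono f → ∃ r : Y ⟶ X, f ≫ r = 𝟙 X
  additive : ω.Additive
  point : ∀ i, FullAt D one ω (D.H i (aff k k))
  threefolds : ∀ Y : Sch k, SmoothProj Y → topologicalKrullDim Y.left ≤ (3 : ℕ) →
    ∀ i, FullAt D one ω (D.H i Y)

/-- **Absolute Hodge classes and cubic hypersurfaces.** See the explanations above. `FullAt D one ω N`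
says that every Hodge class of the motive `N` (all Tate twists) is absolute Hodge. -/
theorem result {k : Type} [Field k] [IsAlgClosed k] [CharZero k] {M : Type u} [Category.{v} M]
    [Abelian M] {Hod : Type u'} [Category.{v'} Hod] [Preadditive Hod] {D : CompactData k M} {one : M}
    {ω : M ⥤ Hod} (h : IsAbsoluteHodge D one ω) :
    ((∀ Y : Sch k, SmoothProj Y → ∀ i, FullAt D one ω (D.H i Y)) ↔
      ∀ (a b c : ℕ) (T : Fin a → Fin b → Fin c → k), ∀ i, FullAt D one ω (D.H i (hypS T))) ∧
    (∀ n : ℕ, (∀ Y : Sch k, SmoothProj Y → topologicalKrullDim Y.left ≤ n →
        ∀ i, FullAt D one ω (D.H i Y)) ↔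
      ∀ (a b c : ℕ) (T : Fin a → Fin b → Fin c → k), (a ≤ n + 2 ∨ b ≤ n + 2 ∨ c ≤ n + 2) →
        ∀ i, FullAt D one ω (D.H i (hypS T))) ∧
    ∀ (a b c : ℕ) (T : Fin a → Fin b → Fin c → k), (a ≤ 5 ∨ b ≤ 5 ∨ c ≤ 5) →
      ∀ i, FullAt D one ω (D.H i (hypS T)) := by
  have := h.additive
  have hS := fullAt_serre (one := one) (F := ω) h.compact h.semisimple
  refine ⟨proj_all_iff h.compact h.generated hS h.point,
    fun n => proj_iff h.compact h.generated hS h.point n, ?_⟩
  exact (proj_iff h.compact h.generated hS h.point 3).mp h.threefolds

end Pool.Agent.Results.MP_0da4e0_ag.CubicHypersurfaces
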