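import Pool.Agent.Q82.PD.Homs

/-!
# Full faithfulness of the Hodge realization: one negative Tate twist is enough

Let `k` be an algebraically closed field and `σ` an embedding of `k` into `ℂ`. In the use the varieties
are the smooth projective ones over `k`, `T` is `Y ↦ H(σ Y, ℚ)` with its Hodge decomposition, and the
conjugate theories are `Y ↦ H(τ Y, ℚ)` for the embeddings `τ` of `k` into `ℂ`, with the comparison
isomorphisms given by de Rham cohomology and by `ℓ`-adic cohomology for all `ℓ`.

Let `X` be a smooth projective variety of dimension `n` over `k`. The Kunneth projectors of `X` are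
absolute Hodge classes, so there are the motives `h^j(X)`. `HomIsAbs D X j j'` says that the Hodge
realization is full for the morphisms from `h^j(X)` to all Tate twists of `h^(j')(X)`: all morphisms of
Hodge structures `H^j(X) → H^(j')(X)(m)` (these are the Hodge classes of codimension `n + m` on `X × X`
which act as zero on `H^i(X)` for `i ≠ j`) are given by absolute Hodge classes. Let `1 ≤ r ≤ n`.

1. The realization is full for the morphisms `h^(j+2r)(X) → h^j(X)(-r)`, for all `j` (the **one** twist
   `-r`), if and only if it is full for the morphisms `h^j(X) → h^(j')(X)(m)`, for all `m` and all `j`, `j'`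
   with `|n - j| + |n - j'| ≥ 2 r`.

2. For `r = 1`: the realization is full for the morphisms `h^(j+2)(X) → h^j(X)(-1)`, for all `j`, if and
   only if it is full for the morphisms `h^j(X) → h^(j')(X)(m)`, for all `m` and all `(j, j') ≠ (n, n)`.

3. In the situation of 1. the realization is full for the morphisms `1 → h(X)(q)` (all Hodge classes of
   codimension `q` on `X` are absolute Hodge) for all `q ≤ n - r` and all `q ≥ r`.

4. The realization is full on the tensor category generated by `h(X)` (all Hodge classes on all powers of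
   `X` are absolute Hodge) if and only if for every `N` there are a power `Y` of `X` and **one** `r` with
   `1 ≤ r ≤ dim Y - N` such that it is full for the morphisms `h^(j+2r)(Y) → h^j(Y)(-r)`, for all `j`.

`pw X n` is the product of `n + 1` copies of `X`.
-/

set_option autoImplicit false

open CategoryTheory AlgebraicGeometry

universe u

namespace Pool.Agent.Results.MP_0da4e0_ag.OneTwistOnSquares

open Pool.Agent.H914 VarClass Obj Pool.Agent.Y121.AHS Pool.Agent.Q82.PD
open Pool.Agent.Y133.Half (pw)

/-- **One negative Tate twist.** -/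
theorem result {k : Type u} [Field k] {𝒱 : VarClass k} {ops : CycleOps 𝒱}
    (T : HodgeTheory ops) (D : Full.Conjugates T) (X : 𝒱.Obj) :
    (∀ r, 1 ≤ r → r ≤ X.dim → ((∀ j, HomIsAbs D X (j + 2 * r) j) ↔
      ∀ j j' : ℕ, 2 * (r : ℤ) ≤ |(X.dim : ℤ) - j| + |(X.dim : ℤ) - j'| → HomIsAbs D X j j')) ∧
    (1 ≤ X.dim → ((∀ j, HomIsAbs D X (j + 2) j) ↔
      ∀ j j' : ℕ, ¬ (j = X.dim ∧ j' = X.dim) → HomIsAbs D X j j')) ∧
    (∀ r, 1 ≤ r → r ≤ X.dim → (∀ j, HomIsAbs D X (j + 2 * r) j) →
      ∀ q, q + r ≤ X.dim ∨ r ≤ q → HodgeIsAbs D X q) ∧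
    (1 ≤ X.dim → ((∀ n j, HodgeIsAbs D (pw X n) j) ↔
      ∀ N, ∃ m r, 1 ≤ r ∧ r + N ≤ (pw X m).dim ∧ ∀ j, HomIsAbs D (pw X m) (j + 2 * r) j)) :=
  ⟨fun _ h1 h2 => homs_iff D X h1 h2, homs_one D X, fun _ h1 h2 h _ hq => homs_self D X h1 h2 h hq,
    homs_powers D X⟩

end Pool.Agent.Results.MP_0da4e0_ag.OneTwistOnSquares
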