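import Pool.Agent.Q49.WU.Facts

/-!
# Full faithfulness of the Hodge realization, weight by weight

Let `k` be an algebraically closed field with an embedding into `ℂ`. Let `M` be the category of motives
for absolute Hodge cycles over `k`, a semisimple abelian category with Tate twists `N ↦ N(a)` and the
unit object `one`, and let `ω` be the Hodge realization. For a separated scheme `X` of finite type over
`k` and integers `n`, `j` let `D.H n j X = Gr^W_{2n} H^j_c(X)`, the part of weight `2n` of the
cohomology with compact supports; for smooth projective `X` it is `h^j(X)` if `j = 2n` and zero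
otherwise. `Full D one ω n X` says that every Hodge class of the Tate twists of the motives `D.H n j X`,
for all `j`, is absolute Hodge (only the twist by `n` has Hodge classes). For smooth projective `Y` it
says that the Hodge classes of degree `2n` on `Y` (codimension `n`) are absolute Hodge.

**Theorem.** (1) Let `n ≥ 0`. All Hodge classes of codimension `n` on smooth projective varieties over
`k` are absolute Hodge if and only if all Hodge classes of the motives `Gr^W_{2(n+a-1)} H^j_c(Z)(n+a-1)`,
`j ∈ ℤ`, are absolute Hodge for the smooth affine cubic hypersurfaces `Z : T(x, y, z) = 1` of all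
trilinear forms `T` over `k`, where `a` is the number of the variables `x_i`. Question Q1 (for `k`) is the
statement for all `n`: morphisms `h(X) → h(Y)(m)` are classes on `X × Y`. The first open case is
`n = 2`, codimension two on all smooth projective varieties, which corresponds to the part of weight
`2(a + 1)` of the hypersurfaces.

(2) Unconditionally, the Hodge classes of `Gr^W_{2m} H^j_c(T = 1)(m)`, `j ∈ ℤ`, `m ≤ a`, are absolute
Hodge for all trilinear forms `T` over `k` in `a` variables `x_i` and any numbers of variables `y_j`,
`z_l` (Lefschetz' theorem on `(1, 1)`-classes).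
-/

set_option autoImplicit false

open CategoryTheory CategoryTheory.Limits AlgebraicGeometry Pool.Agent.Y116.UV Pool.Agent.Z125.UN
  Pool.Agent.Q193.LT Pool.Agent.Q49.WU

universe v u v' u'

namespace Pool.Agent.Results.MP_0da4e0_ag.WeightByWeight

section

variable {k : Type} [Field k] {M : Type u} [Category.{v} M] [Abelian M]
  {Hod : Type u'} [Category.{v'} Hod] [Preadditive Hod]

/-- Every Hodge class of the Tate twists of the motives `D.H n j X`, `j ∈ ℤ`, is absolute Hodge. -/
def Full (D : WeightData k M) (one : M) (ω : M ⥤ Hod) (n : ℤ) (X : Sch k) : Prop :=
  InAt D (TwFull D one ω) n X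

/-- **Absolute Hodge classes, weight by weight.** See the explanations above; `point` is the case of the
Tate motives, `divisors` is Lefschetz' theorem (and the trivial case `n ≤ 0`). -/
theorem result [IsAlgClosed k] [CharZero k] {D : WeightData k M} {one : M} {ω : M ⥤ Hod}
    (h : IsWMotives D) (hω : ω.Additive) (point : ∀ n, Full D one ω n (aff k k))
    (divisors : ∀ n : ℤ, n ≤ 1 → ∀ Y : Sch k, SmoothProj Y → Full D one ω n Y) :
    (∀ n : ℤ, (∀ Y : Sch k, SmoothProj Y → Full D one ω n Y) ↔
      ∀ (a b c : ℕ) (T : Fin a → Fin b → Fin c → k), Full D one ω (n + (a - 1)) (hypS T)) ∧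
    ∀ (a b c : ℕ) (T : Fin a → Fin b → Fin c → k) (m : ℤ), m ≤ a → Full D one ω m (hypS T) := by
  have hS : TwSerre D (TwFull D one ω) := twFull_serre h.weight h.semisimple
  have h1 := sp_weight_iff h.weight h.generated hS point
  refine ⟨h1, fun a b c T m hm => ?_⟩
  have h2 := (h1 (m - (a - 1))).mp (divisors _ (by omega)) a b c T
  rwa [sub_add_cancel] at h2

end

end Pool.Agent.Results.MP_0da4e0_ag.WeightByWeight
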